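import Pool.Agent.W788.NW.Stm

/-! Project NW: the spine identity. -/

set_option autoImplicit false

namespace Pool.Agent.W612.NW

open Finset Pool.Agent.W788.NV Pool.Agent.W788.NW

variable {V : Type} [Fintype V] [DecidableEq V]

/-- the generator of the system of differences -/
noncomputable def NN {X : Type} [AddCommGroup X] [Module ℝ X] (G : SimpleGraph V) (q : ℕ) (θ : ℝ)
    (a b : Fin q) (R : V → (V → Fin q) → X) (v : V) (x : V → Fin q) : X :=
  (∑ e : (V × Fin q) ⊕ (V × V), (if site e = v then (0 : ℝ) else mrate G q θ e) •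
    (R v (actv v a e x) - R v x)) +
  (∑ u : V, mrate G q θ (Sum.inr (u, v)) • R u (Function.update x v b)) - R v x

theorem NN_map {X Y : Type} [AddCommGroup X] [Module ℝ X] [AddCommGroup Y] [Module ℝ Y]
    (L : X →ₗ[ℝ] Y) (G : SimpleGraph V) (q : ℕ) (θ : ℝ)
    (a b : Fin q) (R : V → (V → Fin q) → X) (v : V) (x : V → Fin q) :
    L (NN G q θ a b R v x) = NN G q θ a b (fun v x => L (R v x)) v x := by
  simp only [NN, map_sub, map_add, map_sum, map_smul]

theorem NN_pi {ι X : Type} [AddCommGroup X] [Module ℝ X]
    (G : SimpleGraph V) (q : ℕ) (θ : ℝ) (a b : Fin q)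
    (R : V → (V → Fin q) → ι → X) (v : V) (x : V → Fin q) (i : ι) :
    NN G q θ a b R v x i = NN G q θ a b (fun v x => R v x i) v x := by
  exact NN_map (LinearMap.proj (R := ℝ) (φ := fun _ : ι => X) i) G q θ a b R v x

/-- the linear vector field -/
noncomputable def MM (G : SimpleGraph V) (q : ℕ) (θ : ℝ) (a b : Fin q) :
    (V × (V → Fin q) → ℝ) →ₗ[ℝ] (V × (V → Fin q) → ℝ) where
  toFun R p := NN G q θ a b (fun v x => R (v, x)) p.1 p.2
  map_add' R R' := by
    funext p
    simp only [NN, Pi.add_apply, smul_eq_mul]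
    have h1 : ∀ (c A A' B B' : ℝ), c * (A + A' - (B + B')) = c * (A - B) + c * (A' - B') := by
      intros; ring
    simp only [h1, mul_add, Finset.sum_add_distrib]
    ring
  map_smul' c R := by
    funext p
    simp only [NN, Pi.smul_apply, smul_eq_mul, RingHom.id_apply]
    have h1 : ∀ (d A B : ℝ), d * (c * A - c * B) = c * (d * (A - B)) := by
      intros; ring
    have h2 : ∀ (d A : ℝ), d * (c * A) = c * (d * A) := by
      intros; ring
    simp only [h1, h2, ← Finset.mul_sum]
    ring

omit [DecidableEq V] in
theorem mrate_diag (G : SimpleGraph V) (q : ℕ) (θ : ℝ) (v : V) :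
    mrate G q θ (Sum.inr (v, v)) = 0 := by
  simp [mrate]

section

variable {G : SimpleGraph V} {q : ℕ} {θ : ℝ}

theorem tot_one (h1 : S_TOT) (hq : 1 ≤ q) (h0 : 0 ≤ θ) (hle : θ ≤ 1) (hd : ∀ v, 1 ≤ dg G v)
    (v : V) : ∑ e : (V × Fin q) ⊕ (V × V), mrate G q θ e * (if site e = v then (1 : ℝ) else 0) =
      1 := by
  have h := (h1 V G q θ hq h0 hle hd).2 (fun u => if u = v then (1 : ℝ) else 0)
  rw [h]
  simp

theorem tot_read (h1 : S_TOT) (hq : 1 ≤ q) (h0 : 0 ≤ θ) (hle : θ ≤ 1) (hd : ∀ v, 1 ≤ dg G v)
    (v : V) : ∑ w : V, mrate G q θ (Sum.inr (v, w)) = 1 - θ := by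
  have h' := tot_one h1 hq h0 hle hd v
  rw [Fintype.sum_sum_type, Fintype.sum_prod_type, Fintype.sum_prod_type] at h'
  have h : (∑ u : V, ∑ c : Fin q, mrate G q θ (Sum.inl (u, c)) *
      (if u = v then (1 : ℝ) else 0)) +
      (∑ u : V, ∑ w : V, mrate G q θ (Sum.inr (u, w)) * (if u = v then (1 : ℝ) else 0)) = 1 := h'
  have e1 : ∑ u : V, ∑ c : Fin q, mrate G q θ (Sum.inl (u, c)) * (if u = v then (1 : ℝ) else 0) =
      θ := by
    have e2 : ∀ u : V, ∑ c : Fin q, mrate G q θ (Sum.inl (u, c)) *
        (if u = v then (1 : ℝ) else 0) = if u = v then θ else 0 := by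
      intro u
      have hq0 : (q : ℝ) ≠ 0 := by
        have : 0 < q := hq
        exact_mod_cast this.ne'
      by_cases hu : u = v
      · simp only [hu, if_true, mul_one, mrate, Finset.sum_const, Finset.card_univ,
          Fintype.card_fin, nsmul_eq_mul]
        field_simp
      · simp [hu]
    simp only [e2]
    simp
  have e3 : ∑ u : V, ∑ w : V, mrate G q θ (Sum.inr (u, w)) * (if u = v then (1 : ℝ) else 0) =
      ∑ w : V, mrate G q θ (Sum.inr (v, w)) := by
    rw [Finset.sum_eq_single v]
    · simp
    · intro u _ hu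
      simp [hu]
    · intro hv
      exact absurd (Finset.mem_univ v) hv
  rw [e1, e3] at h
  linarith

/-- the functionals -/
noncomputable def FF (a b : Fin q) (h : (V → Fin q) → ℝ) (w v : V) (x : V → Fin q)
    (p : V × Mp V q) : ℝ :=
  if p.1 = v then h (Function.update (p.2 x) w a) - h (Function.update (p.2 x) w b) else 0

theorem gfF (h1 : S_TOT) (hq : 1 ≤ q) (h0 : 0 ≤ θ) (hle : θ ≤ 1) (hd : ∀ v, 1 ≤ dg G v)
    (a b : Fin q) (h : (V → Fin q) → ℝ) (w v : V) (x : V → Fin q) (p : V × Mp V q) :
    gf (srate G q θ) (sm (V := V) a b) (FF a b h w v x) p =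
      NN G q θ a b (fun v x => FF a b h w v x p) v x + θ * FF a b h w v x p := by
  obtain ⟨s, Ψ⟩ := p
  unfold gf
  rw [Fintype.sum_sum_type]
  have e1 : ∀ e : (V × Fin q) ⊕ (V × V), srate G q θ (Sum.inl e) *
      (FF a b h w v x (sm a b (Sum.inl e) (s, Ψ)) - FF a b h w v x (s, Ψ)) =
      (if site e = v then (0 : ℝ) else mrate G q θ e) *
        (FF a b h w v (actv v a e x) (s, Ψ) - FF a b h w v x (s, Ψ)) := by
    intro e
    simp only [srate, sm]
    by_cases hs : s = v
    · subst hs
      by_cases he : site e = s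
      · simp [he]
      · simp [he, FF]
    · by_cases he : site e = s
      · simp [he, FF, hs]
      · simp [he, FF, hs]
  have e2 : ∑ p : V × V, srate G q θ (Sum.inr p) *
      (FF a b h w v x (sm a b (Sum.inr p) (s, Ψ)) - FF a b h w v x (s, Ψ)) =
      (∑ u : V, mrate G q θ (Sum.inr (u, v)) *
        FF a b h w u (Function.update x v b) (s, Ψ)) - (1 - θ) * FF a b h w v x (s, Ψ) := by
    have e3 : ∀ u w' : V, srate G q θ (Sum.inr (u, w')) *
        (FF a b h w v x (sm a b (Sum.inr (u, w')) (s, Ψ)) - FF a b h w v x (s, Ψ)) =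
        if u = s then mrate G q θ (Sum.inr (s, w')) * (if w' = v then
          h (Function.update (Ψ (Function.update x v b)) w a) -
          h (Function.update (Ψ (Function.update x v b)) w b) else 0) -
          mrate G q θ (Sum.inr (s, w')) * FF a b h w v x (s, Ψ) else 0 := by
      intro u w'
      simp only [srate, sm]
      by_cases hu : u = s
      · subst hu
        by_cases hw : w' = v
        · subst hw
          simp only [if_true, FF]
          ring
        · simp only [if_true, hw, if_false, FF]
          ring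
      · simp [hu]
    rw [Fintype.sum_prod_type]
    simp only [e3]
    rw [Finset.sum_eq_single s]
    · simp only [if_true]
      rw [Finset.sum_sub_distrib, ← Finset.sum_mul, tot_read h1 hq h0 hle hd s]
      congr 1
      rw [Finset.sum_eq_single v]
      · rw [if_pos rfl, Finset.sum_eq_single s]
        · simp only [FF, if_true]
        · intro u _ hu
          simp only [FF, if_neg (Ne.symm hu), mul_zero]
        · intro hv
          exact absurd (Finset.mem_univ s) hv
      · intro u _ hu
        rw [if_neg hu, mul_zero]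
      · intro hv
        exact absurd (Finset.mem_univ v) hv
    · intro u _ hu
      simp only [hu, if_false, Finset.sum_const_zero]
    · intro hv
      exact absurd (Finset.mem_univ s) hv
  simp only [e1]
  rw [e2]
  simp only [NN, smul_eq_mul]
  ring

/-- contribution of the reads of the site `v` -/
noncomputable def TT (G : SimpleGraph V) (q : ℕ) (θ : ℝ) (a b : Fin q) (P : (V → Fin q) → ℝ)
    (v : V) (x : V → Fin q) : (V × Fin q) ⊕ (V × V) → ℝ
  | .inl _ => 0
  | .inr p => if p.2 = v then mrate G q θ (Sum.inr (p.1, v)) *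
      (P (Function.update (Function.update x v b) p.1 a) -
        P (Function.update (Function.update x v b) p.1 b)) else 0

theorem TT_sum (a b : Fin q) (P : (V → Fin q) → ℝ) (v : V) (x : V → Fin q) :
    ∑ e, TT G q θ a b P v x e = ∑ u : V, mrate G q θ (Sum.inr (u, v)) *
      (P (Function.update (Function.update x v b) u a) -
        P (Function.update (Function.update x v b) u b)) := by
  rw [Fintype.sum_sum_type]
  simp only [TT, Finset.sum_const_zero, zero_add]
  rw [Fintype.sum_prod_type]
  simp only [Finset.sum_ite_eq', Finset.mem_univ, if_true]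

/-- one term of the generator of the differences -/
theorem term (a b : Fin q) (P : (V → Fin q) → ℝ) (v : V) (x : V → Fin q)
    (e : (V × Fin q) ⊕ (V × V)) :
    mrate G q θ e * (P (act e (Function.update x v a)) - P (Function.update x v a)) -
      mrate G q θ e * (P (act e (Function.update x v b)) - P (Function.update x v b)) =
    (if site e = v then (0 : ℝ) else mrate G q θ e) *
      ((P (Function.update (actv v a e x) v a) - P (Function.update (actv v a e x) v b)) -
        (P (Function.update x v a) - P (Function.update x v b))) +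
    TT G q θ a b P v x e -
    mrate G q θ e * (if site e = v then (1 : ℝ) else 0) *
      (P (Function.update x v a) - P (Function.update x v b)) := by
  rcases e with ⟨u, c⟩ | ⟨u, w⟩
  · simp only [act, actv, site, TT]
    by_cases hu : u = v
    · subst hu
      simp only [if_true, Function.update_idem]
      ring
    · simp only [hu, if_false]
      rw [Function.update_comm hu, Function.update_comm hu]
      ring
  · simp only [act, actv, site, TT]
    by_cases hu : u = v
    · subst hu
      by_cases hw : w = u
      · subst hw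
        simp only [mrate_diag, if_true]
        ring
      · simp only [if_true, hw, if_false, Function.update_idem,
          Function.update_of_ne hw]
        ring
    · by_cases hw : w = v
      · subst hw
        simp only [if_true, hu, if_false, Function.update_self]
        rw [Function.update_comm hu a a x, Function.update_comm hu a b x]
        ring
      · simp only [hu, hw, if_false, Function.update_of_ne hw]
        rw [Function.update_comm hu, Function.update_comm hu]
        ring

theorem Dgen (h1 : S_TOT) (hq : 1 ≤ q) (h0 : 0 ≤ θ) (hle : θ ≤ 1) (hd : ∀ v, 1 ≤ dg G v)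
    (a b : Fin q) (P : (V → Fin q) → ℝ) (v : V) (x : V → Fin q) :
    gf (mrate G q θ) (act (V := V) (q := q)) P (Function.update x v a) -
      gf (mrate G q θ) (act (V := V) (q := q)) P (Function.update x v b) =
    NN G q θ a b (fun v x => P (Function.update x v a) - P (Function.update x v b)) v x := by
  unfold gf
  rw [← Finset.sum_sub_distrib, Finset.sum_congr rfl fun e _ => term a b P v x e,
    Finset.sum_sub_distrib, Finset.sum_add_distrib, ← Finset.sum_mul,
    tot_one h1 hq h0 hle hd v, one_mul, TT_sum]
  simp only [NN, smul_eq_mul]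

end

theorem spi_ (h : MK) (h1 : S_TOT) : S_SPI := by
  intro V _ _ G q θ hq h0 hle hd a b hh x v t
  obtain ⟨Q, hQd⟩ : ∃ Q : ℝ → (V × (V → Fin q) → ℝ), Q = fun t p =>
    ∑ w, sx G q θ a b t (FF a b hh w p.1 p.2) (st w a) := ⟨_, rfl⟩
  obtain ⟨R, hRd⟩ : ∃ R : ℝ → (V × (V → Fin q) → ℝ), R = fun t => Real.exp (-θ * t) • Q t :=
    ⟨_, rfl⟩
  obtain ⟨D, hDd⟩ : ∃ D : ℝ → (V × (V → Fin q) → ℝ), D = fun t p =>
    pt G q θ t hh (Function.update p.2 p.1 a) - pt G q θ t hh (Function.update p.2 p.1 b) :=
    ⟨_, rfl⟩
  have hQ : ∀ t p, HasDerivAt (fun t => Q t p) (MM G q θ a b (Q t) p + θ * Q t p) t := by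
    intro t p
    obtain ⟨v, x⟩ := p
    have hder : HasDerivAt (fun t => ∑ w, sx G q θ a b t (FF a b hh w v x) (st w a))
        (∑ w, sg (srate G q θ) (sm (V := V) a b) t
          (gf (srate G q θ) (sm (V := V) a b) (FF a b hh w v x)) (st w a)) t :=
      HasDerivAt.fun_sum fun w _ => h.deriv _ _ (srate G q θ) (sm (V := V) a b)
        (FF a b hh w v x) (st w a) t
    have heq : (∑ w, sg (srate G q θ) (sm (V := V) a b) t
          (gf (srate G q θ) (sm (V := V) a b) (FF a b hh w v x)) (st w a)) =
        MM G q θ a b (Q t) (v, x) + θ * Q t (v, x) := by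
      obtain ⟨L, hL⟩ : ∃ L : V → (V × Mp V q → ℝ) →ₗ[ℝ] ℝ, ∀ w F,
          L w F = sg (srate G q θ) (sm (V := V) a b) t F (st w a) :=
        ⟨fun w => (LinearMap.proj (R := ℝ) (φ := fun _ : V × Mp V q => ℝ) (st w a)) ∘ₗ
          Matrix.mulVecLin (NormedSpace.exp (t • mgen (srate G q θ) (sm (V := V) a b))),
          fun w F => rfl⟩
      have hg : ∀ w, gf (srate G q θ) (sm (V := V) a b) (FF a b hh w v x) =
          NN G q θ a b (fun v x => FF a b hh w v x) v x + θ • FF a b hh w v x := by
        intro w
        funext p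
        rw [gfF h1 hq h0 hle hd, Pi.add_apply, NN_pi, Pi.smul_apply, smul_eq_mul]
      have h3 : ∀ w, sg (srate G q θ) (sm (V := V) a b) t
          (gf (srate G q θ) (sm (V := V) a b) (FF a b hh w v x)) (st w a) =
          NN G q θ a b (fun v x => fun w => L w (FF a b hh w v x)) v x w +
            θ * L w (FF a b hh w v x) := by
        intro w
        rw [hg w, ← hL, map_add, map_smul, smul_eq_mul, NN_map (L w), NN_pi]
      rw [Finset.sum_congr rfl fun w _ => h3 w, Finset.sum_add_distrib, ← Finset.mul_sum]
      have h4 : ∑ w, NN G q θ a b (fun v x => fun w => L w (FF a b hh w v x)) v x w =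
          NN G q θ a b (fun v x => ∑ w, L w (FF a b hh w v x)) v x := by
        have h5 := NN_map (∑ w : V, LinearMap.proj (R := ℝ) (φ := fun _ : V => ℝ) w) G q θ a b
          (fun v x => fun w => L w (FF a b hh w v x)) v x
        simp only [LinearMap.sum_apply, LinearMap.proj_apply] at h5
        exact h5
      rw [h4, hQd]
      simp only [hL]
      rfl
    rw [heq] at hder
    rw [hQd] at hder ⊢
    exact hder
  have hR : ∀ t, HasDerivAt R (MM G q θ a b (R t)) t := by
    intro t
    rw [hasDerivAt_pi]
    intro p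
    have h2 : HasDerivAt (fun t => Real.exp (-θ * t)) (Real.exp (-θ * t) * (-θ)) t := by
      have h3 : HasDerivAt (fun t : ℝ => -θ * t) (-θ) t := by
        simpa using (hasDerivAt_id t).const_mul (-θ)
      exact h3.exp
    have h4 := h2.mul (hQ t p)
    have h5 : Real.exp (-θ * t) * (-θ) * Q t p + Real.exp (-θ * t) *
        (MM G q θ a b (Q t) p + θ * Q t p) = MM G q θ a b (R t) p := by
      rw [hRd]
      simp only [map_smul, Pi.smul_apply, smul_eq_mul]
      ring
    rw [h5] at h4
    rw [hRd] at h4 ⊢
    exact h4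
  have hD : ∀ t, HasDerivAt D (MM G q θ a b (D t)) t := by
    intro t
    rw [hasDerivAt_pi]
    intro p
    obtain ⟨v, x⟩ := p
    have h2 : ∀ y, HasDerivAt (fun t => pt G q θ t hh y)
        (gf (mrate G q θ) (act (V := V) (q := q)) (pt G q θ t hh) y) t := by
      intro y
      have h3 := h.deriv _ _ (mrate G q θ) (act (V := V) (q := q)) hh y t
      rw [h.comm] at h3
      exact h3
    have h4 := (h2 (Function.update x v a)).sub (h2 (Function.update x v b))
    rw [Dgen h1 hq h0 hle hd] at h4
    rw [hDd]
    exact h4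
  have h00 : R 0 = D 0 := by
    funext p
    obtain ⟨v, x⟩ := p
    rw [hRd, hDd, hQd]
    simp only [Pi.smul_apply, smul_eq_mul, mul_zero, Real.exp_zero, one_mul, sx, pt]
    simp only [h.zero]
    rw [Finset.sum_eq_single v]
    · simp only [FF, st, if_true, Function.update_idem]
    · intro u _ hu
      exact if_neg hu
    · intro hv
      exact absurd (Finset.mem_univ v) hv
  have hun : R = D := by
    refine ODE_solution_unique_univ (v := fun _ => MM G q θ a b) (s := fun _ => Set.univ)
      (K := ‖LinearMap.toContinuousLinearMap (MM G q θ a b)‖₊) (t₀ := 0) ?_ ?_ ?_ h00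
    · intro t
      exact ((LinearMap.toContinuousLinearMap (MM G q θ a b)).lipschitz).lipschitzOnWith
    · exact fun t => ⟨hR t, Set.mem_univ _⟩
    · exact fun t => ⟨hD t, Set.mem_univ _⟩
  have hfin := congrFun (congrFun hun t) (v, x)
  rw [hRd, hDd, hQd] at hfin
  simp only [Pi.smul_apply, smul_eq_mul] at hfin
  exact hfin.symm

end Pool.Agent.W612.NW
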